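import Mathlib
import Pool.Agent.N293.BT.Nrm3

/-!
# MP_0ce33b_an, Q1 for the normal completions

If `Φ`, `Ψ` are co-analytic polynomials of degree `n ≥ 1` and the completion
`[[T_Φ, T_α], [T_β, T_Ψ]]` is a normal operator, then `α` and `β` are trigonometric polynomials of
degree at most `n`. More precisely, up to constant terms,
`α = μ Ψ + u Φ̄` and `β = - μ̄ Φ + v Ψ̄` with constants `|u|² = |v|² = 1 + |μ|²`.
-/

set_option autoImplicit false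
open scoped InnerProductSpace ComplexConjugate ENNReal Matrix
open Filter Topology MeasureTheory AddCircle
open Pool.Agent.Helper917.Hardy
open Pool.Agent.H612R3.BpDefs
open Pool.Agent.N293.BT

namespace Pool.Agent.Results.MP_0ce33b_an.NormalCompletions

theorem result (n : ℕ) (hn : 1 ≤ n) (Φ Ψ α β : Circ → ℂ)
    (hΘ : IsLinfty (fun t => !![Φ t, α t; β t, Ψ t])) (hΦ : IsCoanalyticPoly n Φ)
    (hΨ : IsCoanalyticPoly n Ψ) (T : HardySp 2 →L[ℂ] HardySp 2)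
    (hT : IsToeplitz (fun t => !![Φ t, α t; β t, Ψ t]) T) (hN : IsNormalOp T) :
    (∃ μ u v : ℂ, ‖u‖ ^ 2 = 1 + ‖μ‖ ^ 2 ∧ ‖v‖ ^ 2 = 1 + ‖μ‖ ^ 2 ∧ ∀ k : ℕ, 1 ≤ k →
      fourierCoeff α (-(k : ℤ)) = μ * fourierCoeff Ψ (-(k : ℤ)) ∧
      fourierCoeff α k = u * conj (fourierCoeff Φ (-(k : ℤ))) ∧
      fourierCoeff β (-(k : ℤ)) = -conj μ * fourierCoeff Φ (-(k : ℤ)) ∧
      fourierCoeff β k = v * conj (fourierCoeff Ψ (-(k : ℤ)))) ∧
    (α =ᵐ[mu] fun t => ∑ k ∈ Finset.Icc (-(n : ℤ)) n, fourierCoeff α k * fourier k t) ∧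
    (β =ᵐ[mu] fun t => ∑ k ∈ Finset.Icc (-(n : ℤ)) n, fourierCoeff β k * fourier k t) :=
  normal_completion n hn Φ Ψ α β hΘ hΦ hΨ T hT hN

end Pool.Agent.Results.MP_0ce33b_an.NormalCompletions
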